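import Pool.Agent.Lib_MP_801c1a_aff.Geo

/-!
# The Leader-Long geodesic conjecture holds for all affine colourings of the cube, in every dimension

A 2-colouring of the edges of the `n`-cube is called affine if flipping one coordinate `e` either
preserves the colours of all edges in direction `d`, or reverses the colours of all edges in
direction `d` (for each pair of different directions `d, e`). There are `2 ^ (n ^ 2)` affine
colourings: colour the edges of direction `d` at the origin and choose the matrix of the reversals.
For each of them some vertex is joined to its antipode by a geodesic with at most one colour change.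

The colour of the edge in direction `d` whose end with `d`-th coordinate `false` is `z` is `c z d`.
-/

set_option autoImplicit false

namespace Pool.Agent.Results.MP_801c1a_co.AffineColourings

/-- The colour of the `i`-th edge of the geodesic that starts at `v` and uses the directions
`σ 0, σ 1, …, σ (n-1)` in this order (so it ends at the antipode of `v`). -/
def edgeColour {n : ℕ} (c : (Fin n → Bool) → Fin n → Bool) (v : Fin n → Bool)
    (σ : Equiv.Perm (Fin n)) (i : Fin n) : Bool :=
  c (Function.update (fun x : Fin n => v x != decide ((σ.symm x).val < i.val)) (σ i) false) (σ i)

/-- The colouring is affine: for different directions `d` and `e`, flipping the coordinate `e`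
either preserves the colour of every edge in direction `d`, or changes the colour of every edge in
direction `d`. -/
def IsAffine {n : ℕ} (c : (Fin n → Bool) → Fin n → Bool) : Prop :=
  ∀ d e : Fin n, e ≠ d →
    (∀ z : Fin n → Bool, z d = false → c (Function.update z e (!z e)) d = c z d) ∨
    (∀ z : Fin n → Bool, z d = false → c (Function.update z e (!z e)) d ≠ c z d)

open Pool.Agent.AffGeo in
/-- For every `n` and every affine 2-colouring of the edges of the `n`-cube, there is a shortest
path from some vertex to its antipode whose edge colours change at most once along the path. -/
theorem result :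
    ∀ n : ℕ, ∀ c : (Fin n → Bool) → Fin n → Bool, IsAffine c →
      ∃ v : Fin n → Bool, ∃ σ : Equiv.Perm (Fin n),
        ∀ i j k : Fin n, i < j → j < k →
          edgeColour c v σ i = edgeColour c v σ j ∨ edgeColour c v σ j = edgeColour c v σ k := by
  classical
  intro n c hc
  obtain ⟨A, s, hdiag, hA⟩ := affine_form c hc
  obtain ⟨p, hp, x, t, a, b, h⟩ := geo A s hdiag Finset.univ
  have hpinj : Function.Injective p := fun u v huv => hp (by simp) (by simp) huv
  have hmono : StrictMono (p ∘ Tuple.sort p) :=
    (Tuple.monotone_sort p).strictMono_of_injective
      (hpinj.comp (Tuple.sort p).injective)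
  refine ⟨fun e => decide (x e = 1), Tuple.sort p, ?_⟩
  set σ : Equiv.Perm (Fin n) := Tuple.sort p with hσ
  have hbx : ∀ e, bz (decide (x e = 1)) = x e := by
    intro e
    rcases z2_cases (x e) with h1 | h1 <;> rw [h1] <;> rfl
  have hcol : ∀ i : Fin n, bz (edgeColour c (fun e => decide (x e = 1)) σ i)
      = if p (σ i) < t then a else b := by
    intro i
    rw [← h (σ i) (Finset.mem_univ _)]
    unfold edgeColour col FF
    rw [hA _ _ (Function.update_self _ _ _), add_assoc, ← Finset.sum_add_distrib]
    congr 1
    refine Finset.sum_congr rfl fun e _ => ?_
    by_cases he : e = σ i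
    · subst he; rw [hdiag]; simp
    · rw [Function.update_of_ne he]
      have h1 : (σ.symm e).val < i.val ↔ p e < p (σ i) := by
        have h2 := hmono.lt_iff_lt (a := σ.symm e) (b := i)
        simp only [Function.comp_apply, Equiv.apply_symm_apply] at h2
        rw [← Fin.lt_def]
        exact h2.symm
      by_cases h3 : p e < p (σ i)
      · rw [if_pos h3]
        have h4 : ((decide (x e = 1)) != decide ((σ.symm e).val < i.val))
            = !(decide (x e = 1)) := by
          rw [decide_eq_true (h1.mpr h3)]; simp
        rw [h4, bz_not, hbx]; ring
      · rw [if_neg h3]
        have h4 : ((decide (x e = 1)) != decide ((σ.symm e).val < i.val))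
            = decide (x e = 1) := by
          rw [decide_eq_false (fun h5 => h3 (h1.mp h5))]; simp
        rw [h4, hbx]; ring
  intro i j k hij hjk
  have h1 : p (σ i) < p (σ j) := hmono hij
  have h2 : p (σ j) < p (σ k) := hmono hjk
  by_cases h3 : p (σ j) < t
  · left
    apply bz_inj
    rw [hcol, hcol, if_pos (h1.trans h3), if_pos h3]
  · right
    apply bz_inj
    rw [hcol, hcol, if_neg h3, if_neg (by omega)]

end Pool.Agent.Results.MP_801c1a_co.AffineColourings
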