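import Pool.Agent.Lib_MP_801c1a_co.Avg
import Pool.Agent.Lib_MP_801c1a_co.Lower

/-!
Antipodal geodesics with few colour changes in the 2-edge-coloured hypercube: the average over the
starting vertex of the least number of colour changes has order `√n` in the worst case.

An edge colouring of the cube is given (as in the frozen statement of the problem) by
`c : (Fin n → Bool) → Fin n → Bool`: the edge of direction `d` whose end with `d`-th coordinate
`false` is `z` has colour `c z d`.
-/

set_option autoImplicit false

namespace Pool.Agent.Results.MP_801c1a_co.SqrtColourChanges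

/-- The colour of the `i`-th edge of the geodesic that starts at `v` and uses the directions
`σ 0, σ 1, …, σ (n-1)` in this order (so it ends at the antipode of `v`). -/
def edgeColour {n : ℕ} (c : (Fin n → Bool) → Fin n → Bool) (v : Fin n → Bool)
    (σ : Equiv.Perm (Fin n)) (i : Fin n) : Bool :=
  c (Function.update (fun x : Fin n => v x != decide ((σ.symm x).val < i.val)) (σ i) false) (σ i)

/-- The number of colour changes along this geodesic: the number of `i` such that the `i`-th and
the `(i+1)`-st edge exist and have different colours. -/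
def colourChanges {n : ℕ} (c : (Fin n → Bool) → Fin n → Bool) (v : Fin n → Bool)
    (σ : Equiv.Perm (Fin n)) : ℕ :=
  (Finset.univ.filter (fun i : Fin n => ∃ j : Fin n, j.val = i.val + 1 ∧
    edgeColour c v σ i ≠ edgeColour c v σ j)).card

/-- (A) In every 2-edge-coloured cube one can choose for each vertex `v` a geodesic from `v` to its
antipode such that the average number of colour changes is at most `(π/2) n / √(n-1)`.
(B) The order `√n` is best possible for the average: for a suitable colouring, every choice of a
geodesic for each vertex has at least `(4/9) √n - 1` colour changes on average. -/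
theorem result :
    (∀ n : ℕ, 2 ≤ n → ∀ c : (Fin n → Bool) → Fin n → Bool,
      ∃ σ : (Fin n → Bool) → Equiv.Perm (Fin n),
        (∑ v : Fin n → Bool, (colourChanges c v (σ v) : ℝ)) / 2 ^ n
          ≤ Real.pi / 2 * n / Real.sqrt (n - 1)) ∧
    (∀ n : ℕ, 1 ≤ n → ∃ c : (Fin n → Bool) → Fin n → Bool,
      ∀ σ : (Fin n → Bool) → Equiv.Perm (Fin n),
        4 / 9 * Real.sqrt n - 1 ≤
          (∑ v : Fin n → Bool, (colourChanges c v (σ v) : ℝ)) / 2 ^ n) := by
  constructor
  · intro n hn c
    have h := fun v => Pool.MP_801c1a_co.Sub.exists_perm c v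
    choose σ hσ using h
    refine ⟨σ, ?_⟩
    have h1 := Pool.MP_801c1a_co.Sub.avg_cost_le (n := n)
      (fun z m => c (Function.update z m false) m) (by
        intro z m
        unfold Pool.MP_801c1a_co.Sub.flip
        rw [Function.update_idem]) hn
    have h2 : ∀ v, colourChanges c v (σ v)
        = Pool.MP_801c1a_co.Sub.cost (fun z m => c (Function.update z m false) m) v
          (fun _ => true) := fun v => hσ v
    simp only [h2]
    exact h1
  · intro n hn
    refine ⟨Pool.MP_801c1a_co.Sub.lev, ?_⟩
    intro σ
    rw [le_div_iff₀ (by positivity)]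
    have h1 := Pool.MP_801c1a_co.Sub.abs_avg n hn
    have h2 : ∑ v : Fin n → Bool, (|((Pool.MP_801c1a_co.Sub.Sg v : ℤ) : ℝ)| - 1) ≤
        ∑ v : Fin n → Bool, (colourChanges Pool.MP_801c1a_co.Sub.lev v (σ v) : ℝ) :=
      Finset.sum_le_sum fun v _ => Pool.MP_801c1a_co.Sub.changes_lower v (σ v) hn
    rw [Finset.sum_sub_distrib, Pool.MP_801c1a_co.Sub.moment0] at h2
    have h3 : (0 : ℝ) < 2 ^ n := by positivity
    nlinarith

end Pool.Agent.Results.MP_801c1a_co.SqrtColourChanges
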